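import Pool.Agent.Helper50.GP.St

set_option autoImplicit false

namespace Pool.Agent.Helper40.GP

open Pool.Agent.Helper50.GP

section

variable {H ι : Type} [Group H]

theorem comm_prod (v : ι → H) (a : H) (h : ∀ i, Commute a (v i)) (L : List ι) :
    Commute a ((L.map v).prod) := by
  refine Commute.list_prod_right _ _ (fun x hx => ?_)
  obtain ⟨i, _, rfl⟩ := List.mem_map.1 hx
  exact h i

theorem prod_pow_one (v : ι → H) (q : ℕ) (hv : ∀ i j, Commute (v i) (v j))
    (h : ∀ i, v i ^ q = 1) (L : List ι) : ((L.map v).prod) ^ q = 1 := by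
  induction L with
  | nil => simp
  | cons a L ih =>
    rw [List.map_cons, List.prod_cons, (comm_prod v (v a) (hv a) L).mul_pow, h a, ih, one_mul]

theorem prod_b (v : ι → H) (d : H) (hv : ∀ i j, Commute (v i) (v j))
    (hd : ∀ i, Commute d (v i)) (L : List ι) :
    (L.map (fun i => (v i)⁻¹ * d)).prod = ((L.map v).prod)⁻¹ * d ^ L.length := by
  induction L with
  | nil => simp
  | cons a L ih =>
    have h1 : Commute (v a) ((L.map v).prod) := comm_prod v (v a) (hv a) L
    have h2 : Commute d ((L.map v).prod) := comm_prod v d hd L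
    have h3 : Commute ((v a)⁻¹ * d) (((L.map v).prod)⁻¹) :=
      (h1.inv_left.mul_left h2).inv_right
    rw [List.map_cons, List.prod_cons, ih, List.map_cons, List.prod_cons, List.length_cons,
      ← mul_assoc, h3.eq, mul_inv_rev, pow_succ']
    simp only [mul_assoc]

end

theorem perm_affine (p : ℕ) [hp : Fact p.Prime] (u w : ZMod p) (hu : u ≠ 0) :
    ((List.range p).map (fun i : ℕ => u * (i : ZMod p) + w)).Perm
      ((List.range p).map (fun i : ℕ => (i : ZMod p))) := by
  have inj : ∀ i ∈ List.range p, ∀ j ∈ List.range p, (i : ZMod p) = (j : ZMod p) → i = j := by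
    intro i hi j hj h
    have hi' := List.mem_range.1 hi
    have hj' := List.mem_range.1 hj
    have := (ZMod.natCast_eq_natCast_iff' i j p).1 h
    rwa [Nat.mod_eq_of_lt hi', Nat.mod_eq_of_lt hj'] at this
  have sur : ∀ z : ZMod p, ∃ i ∈ List.range p, (i : ZMod p) = z := fun z =>
    ⟨z.val, List.mem_range.2 (ZMod.val_lt z), ZMod.natCast_zmod_val z⟩
  have n1 : ((List.range p).map (fun i : ℕ => (i : ZMod p))).Nodup :=
    List.Nodup.map_on (fun i hi j hj h => inj i hi j hj h) List.nodup_range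
  have n2 : ((List.range p).map (fun i : ℕ => u * (i : ZMod p) + w)).Nodup :=
    List.Nodup.map_on (fun i hi j hj h =>
      inj i hi j hj (mul_left_cancel₀ hu (add_right_cancel h))) List.nodup_range
  refine (List.perm_ext_iff_of_nodup n2 n1).2 (fun z => ?_)
  constructor
  · intro _
    obtain ⟨i, hi, h⟩ := sur z
    exact List.mem_map.2 ⟨i, hi, h⟩
  · intro _
    obtain ⟨i, hi, h⟩ := sur (u⁻¹ * (z - w))
    refine List.mem_map.2 ⟨i, hi, ?_⟩
    show u * (i : ZMod p) + w = z
    rw [h, ← mul_assoc, mul_inv_cancel₀ hu, one_mul, sub_add_cancel]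

theorem prod_affine {H : Type} [Group H] (p : ℕ) [hp : Fact p.Prime] (v : ZMod p → H)
    (hv : ∀ i j, Commute (v i) (v j)) (u w : ZMod p) (hu : u ≠ 0) :
    ((List.range p).map (fun i : ℕ => v (u * (i : ZMod p) + w))).prod =
      ((List.range p).map (fun i : ℕ => v (i : ZMod p))).prod := by
  have h1 := (perm_affine p u w hu).map v
  rw [List.map_map, List.map_map] at h1
  refine List.Perm.prod_eq' h1 ?_
  refine List.pairwise_of_forall_mem_list (fun a ha b hb => ?_)
  obtain ⟨i, _, rfl⟩ := List.mem_map.1 ha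
  obtain ⟨j, _, rfl⟩ := List.mem_map.1 hb
  exact hv _ _

theorem hFHA : StFHA := by
  intro p q m g e1 e2 lam hp hpar ρ H _ y hw
  have hp1 : p.Prime := hp.out
  -- the first word
  have y1 : ∀ k, y k ^ (m * q) = 1 := by
    intro k
    have h := hw (FreeGroup.of 0 ^ (m * q)) (by simp [words]) 1 k one_ne_zero
    simpa using h
  -- affine maps
  have aff : ∀ k l : ZMod p, k ≠ l → (l - k) * 0 + k = k ∧ (l - k) * 1 + k = l ∧ l - k ≠ 0 :=
    fun k l h => ⟨by ring, by ring, sub_ne_zero.2 (Ne.symm h)⟩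
  obtain ⟨v, hvdef⟩ : ∃ v : ZMod p → H, ∀ k, v k = y k ^ e2 := ⟨fun k => y k ^ e2, fun k => rfl⟩
  have vc : ∀ k l, Commute (v k) (v l) := by
    intro k l
    by_cases hkl : k = l
    · rw [hkl]
    · obtain ⟨a0, a1, a2⟩ := aff k l hkl
      have h := hw (Vw p e2 0 * Vw p e2 1 * (Vw p e2 1 * Vw p e2 0)⁻¹) (by simp [words])
        (l - k) k a2
      simp only [Vw, map_mul, map_inv, map_pow, FreeGroup.lift_apply_of, a0, a1] at h
      rw [hvdef, hvdef]
      exact mul_inv_eq_one.1 h
  obtain ⟨d, hd⟩ : ∃ d : H, d = ((List.range p).map (fun i : ℕ => v (i : ZMod p))).prod :=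
    ⟨_, rfl⟩
  have dc : ∀ k, Commute d (v k) := by
    intro k
    rw [hd]
    exact (comm_prod (fun i : ℕ => v (i : ZMod p)) (v k) (fun i => vc _ _) _).symm
  have lD : ∀ u w : ZMod p, u ≠ 0 → FreeGroup.lift (fun k => y (u * k + w)) (Dw p e2) = d := by
    intro u w hu
    have e0 : ∀ L : List ℕ, (L >>= fun a => pure ((a : ℕ) : ZMod p)) =
        L.map (fun i : ℕ => (i : ZMod p)) := by
      intro L
      induction L with
      | nil => rfl
      | cons a L ih =>
        have h1 : ((a :: L) >>= fun a => pure ((a : ℕ) : ZMod p)) =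
          ((a : ℕ) : ZMod p) :: (L >>= fun a => pure ((a : ℕ) : ZMod p)) := rfl
        rw [h1, ih, List.map_cons]
    rw [hd, ← prod_affine p v vc u w hu, Dw, map_list_prod, List.map_map, e0, List.map_map]
    congr 1
    refine List.map_congr_left (fun i _ => ?_)
    simp [Vw, hvdef]
  obtain ⟨b, hb⟩ : ∃ b : ZMod p → H, ∀ k, b k = (v k)⁻¹ * d := ⟨fun k => (v k)⁻¹ * d, fun k => rfl⟩
  have lB : ∀ u w k : ZMod p, u ≠ 0 →
      FreeGroup.lift (fun k => y (u * k + w)) (Bw p e2 k) = b (u * k + w) := by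
    intro u w k hu
    rw [Bw, map_mul, map_inv, lD u w hu, hb, hvdef]
    simp [Vw]
  have uu : ∀ k l, k ≠ l → y k ^ e1 * y l ^ e1 = y l ^ e1 * y k ^ e1 := by
    intro k l hkl
    obtain ⟨a0, a1, a2⟩ := aff k l hkl
    have h := hw (Uw p e1 0 * Uw p e1 1 * (Uw p e1 1 * Uw p e1 0)⁻¹) (by simp [words])
      (l - k) k a2
    simp only [Uw, map_mul, map_inv, map_pow, FreeGroup.lift_apply_of, a0, a1] at h
    exact mul_inv_eq_one.1 h
  have ub : ∀ k l, k ≠ l → y k ^ e1 * b l = b l * y k ^ e1 := by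
    intro k l hkl
    obtain ⟨a0, a1, a2⟩ := aff k l hkl
    have h := hw (Uw p e1 0 * Bw p e2 1 * (Bw p e2 1 * Uw p e1 0)⁻¹) (by simp [words])
      (l - k) k a2
    simp only [map_mul, map_inv, lB _ _ _ a2, a1] at h
    simp only [Uw, map_pow, FreeGroup.lift_apply_of, a0] at h
    exact mul_inv_eq_one.1 h
  have bb : ∀ k l, b k * b l = b l * b k := by
    intro k l
    have h1 : Commute (b k) (b l) := by
      rw [hb, hb]
      exact ((vc k l).inv_inv.mul_right ((dc k).symm.inv_left)).mul_left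
        ((dc l).inv_right.mul_right (Commute.refl d))
    exact h1.eq
  have rr : ∀ k, ∀ ω ∈ ρ, FreeGroup.lift ![y k ^ e1, b k] ω = 1 := by
    intro k ω hω
    have h := hw (FreeGroup.lift ![Uw p e1 0, Bw p e2 0] ω)
      (by
        unfold words
        exact List.mem_append_right _ (List.mem_map.2 ⟨ω, hω, rfl⟩)) 1 k one_ne_zero
    have h2 : (FreeGroup.lift (fun k_1 => y (1 * k_1 + k))).comp
        (FreeGroup.lift ![Uw p e1 0, Bw p e2 0]) = FreeGroup.lift ![y k ^ e1, b k] := by
      refine FreeGroup.ext_hom _ _ (fun i => ?_)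
      fin_cases i
      · simp [Uw]
      · have h3 := lB 1 k 0 one_ne_zero
        have e3 : (1 : ZMod p) * 0 + k = k := by ring
        rw [e3] at h3
        simpa using h3
    rw [← h2]
    exact h
  refine ⟨b, uu, ub, bb, rr, ?_⟩
  -- generation
  have vq : ∀ k, v k ^ q = 1 := by
    intro k
    obtain ⟨t, ht⟩ := (Nat.modEq_zero_iff_dvd).1 hpar.e2m
    rw [hvdef, ht, ← pow_mul, show m * t * q = (m * q) * t by ring, pow_mul, y1, one_pow]
  have dq : d ^ q = 1 := by
    rw [hd]
    exact prod_pow_one (fun i : ℕ => v (i : ZMod p)) q (fun i j => vc _ _) (fun i => vq _) _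
  have hpb : ((List.range p).map (fun i : ℕ => b (i : ZMod p))).prod = d := by
    have h1 := prod_b (fun i : ℕ => v (i : ZMod p)) d (fun i j => vc _ _) (fun i => dc _)
      (List.range p)
    have h2 : (List.range p).map (fun i : ℕ => b (i : ZMod p)) =
        (List.range p).map (fun i : ℕ => (v (i : ZMod p))⁻¹ * d) :=
      List.map_congr_left (fun i _ => hb _)
    rw [h2, h1, ← hd, List.length_range]
    have p2 : 2 ≤ p := hp1.two_le
    obtain ⟨t, ht⟩ := (Nat.modEq_iff_dvd' p2).1 hpar.pq.symm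
    have h3 : p = 1 + (1 + q * t) := by omega
    calc d⁻¹ * d ^ p = d⁻¹ * d ^ (1 + (1 + q * t)) := by rw [← h3]
      _ = d * (d ^ q) ^ t := by
        rw [pow_add, pow_add, pow_one, inv_mul_cancel_left, pow_mul]
      _ = d := by rw [dq, one_pow, mul_one]
  intro k
  obtain ⟨S, hS⟩ : ∃ S : Subgroup H,
      S = Subgroup.closure (Set.range (fun k => y k ^ e1) ∪ Set.range b) := ⟨_, rfl⟩
  rw [← hS]
  have hbS : ∀ k, b k ∈ S := by
    intro k
    rw [hS]
    exact Subgroup.subset_closure (Or.inr ⟨k, rfl⟩)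
  have huS : ∀ k, y k ^ e1 ∈ S := by
    intro k
    rw [hS]
    exact Subgroup.subset_closure (Or.inl ⟨k, rfl⟩)
  have hdS : d ∈ S := by
    rw [← hpb]
    refine Subgroup.list_prod_mem _ (fun x hx => ?_)
    obtain ⟨i, _, rfl⟩ := List.mem_map.1 hx
    exact hbS _
  have hvS : v k ∈ S := by
    have h1 : v k = d * (b k)⁻¹ := by
      rw [hb, mul_inv_rev, inv_inv, mul_inv_cancel_left]
    rw [h1]
    exact S.mul_mem hdS (S.inv_mem (hbS k))
  have hy : y k = y k ^ e1 * v k := by
    rw [hvdef, ← pow_add]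
    have h1 : e1 + e2 ≡ 1 [MOD m * q] := by
      refine (Nat.modEq_and_modEq_iff_modEq_mul hpar.mq).1 ⟨?_, ?_⟩
      · simpa using hpar.e1m.add hpar.e2m
      · simpa using hpar.e1q.add hpar.e2q
    have h2 : y k ^ (e1 + e2) = y k ^ 1 := by
      rw [pow_eq_pow_mod (e1 + e2) (y1 k), pow_eq_pow_mod 1 (y1 k), h1]
    rw [h2, pow_one]
  rw [hy]
  exact S.mul_mem (huS k) hvS

end Pool.Agent.Helper40.GP
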